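import Pool.Agent.Tach.Glob

set_option autoImplicit false

open CategoryTheory

namespace Pool.Agent.Results.MP_543c57_al.CharTwoSmallSquares

/-- The first Tachikawa conjecture for commutative finite-dimensional algebras of characteristic
two whose radical `r` satisfies `r ^ (2 s) = 0` and `x ^ 2 ∈ r ^ s` for `x ∈ r`, where `2 ≤ s ≤ 6`
(for `s = 5, 6` with a further condition). For `s = 2` the condition on squares is void, so that the
hypothesis is `r ^ 4 = 0`. Moreover the vanishing for all large degrees is enough. -/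
theorem result :
    ∀ (k : Type) [Field k] (A : Type) [CommRing A] [Algebra k A] [FiniteDimensional k A]
      (M : Type) [AddCommGroup M] [Module A M] [Module k M] [IsScalarTower k A M]
      (e : M ≃ₗ[k] Module.Dual k A),
      (∀ (a : A) (m : M) (x : A), e (a • m) x = e m (x * a)) →
      ∀ [CategoryTheory.HasExt.{1} (ModuleCat.{0} A)],
      (2 : A) = 0 →
      ∀ s : ℕ, 2 ≤ s → s ≤ 6 → nilradical A ^ (2 * s) = ⊥ →
      (∀ x ∈ nilradical A, x ^ 2 ∈ nilradical A ^ s) →
      (4 < s → ∀ (l : ℕ) (x y : Fin l → A), (∀ i, x i ∈ nilradical A) →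
        (∀ i, y i ∈ nilradical A) → ∑ i, x i * y i = 0 →
        ∑ i, ∑ j, (if i < j then (x i * y i) * (x j * y j) else 0) ∈ nilradical A ^ s) →
      ((Module.Injective A A ↔
        ∀ i : ℕ, 1 ≤ i →
          Subsingleton
            (CategoryTheory.Abelian.Ext.{1} (ModuleCat.of A M) (ModuleCat.of A A) i)) ∧
      (Module.Injective A A ↔
        ∃ N : ℕ, ∀ i : ℕ, N ≤ i →
          Subsingleton
            (CategoryTheory.Abelian.Ext.{1} (ModuleCat.of A M) (ModuleCat.of A A) i))) := by
  intro k _ A _ _ _ M _ _ _ _ e he _ h2 s hs2 hs6 hrad hsq hE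
  have h1 : Module.Injective A A → ∀ i : ℕ, 1 ≤ i →
      Subsingleton (CategoryTheory.Abelian.Ext.{1} (ModuleCat.of A M) (ModuleCat.of A A) i) := by
    intro hinj i hi
    obtain ⟨j, rfl⟩ : ∃ j, i = j + 1 := ⟨i - 1, by omega⟩
    have := Module.injective_object_of_injective_module A A
    exact Abelian.Ext.subsingleton_of_injective _ _ j
  have h3 : (∃ N : ℕ, ∀ i : ℕ, N ≤ i →
      Subsingleton (CategoryTheory.Abelian.Ext.{1} (ModuleCat.of A M) (ModuleCat.of A A) i)) →
      Module.Injective A A := by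
    rintro ⟨N, hN⟩
    exact Pool.Agent.Tach.glob (k := k) e he h2 hN hs2 hs6 hrad hsq hE
  exact ⟨⟨h1, fun h => h3 ⟨1, h⟩⟩, ⟨fun h => ⟨1, h1 h⟩, h3⟩⟩

end Pool.Agent.Results.MP_543c57_al.CharTwoSmallSquares
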