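import Pool.Agent.Lib_TGr.OfGraded

set_option autoImplicit false

open CategoryTheory

namespace Pool.Agent.Results.MP_543c57_al.GradedWindow

/-- The first Tachikawa conjecture for connected graded finite-dimensional algebras (not
necessarily commutative) `A = ⨁ 𝒜 i`, `𝒜 0 = k`, with top degree `s` and `𝒜 i = 0` for
`0 < i < m`, in each of the following cases.

* `s < 4 * m` (for `m = 1`: `𝒜 i = 0` for `i ≥ 4`);
* `p + q < s + 2 * m`, where all nonzero elements which the complementary degree annihilates on the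
  left (right) have degree at most `p` (`q`);
* the multiplications `𝒜 i × 𝒜 (s - i) → 𝒜 s` are non-degenerate on both sides for all `i` outside
  an interval `[c, d]` with `3 * (d - c) < s`;
* left and right annihilation by the complementary degree agree, and `𝒜 i`, `𝒜 (s - i)` have
  the same dimension for `m ≤ i ≤ (s - 3) / 6`.

Moreover the vanishing of `Ext^i` for `1 ≤ i ≤ n`, where `3 * s < n * m`, is enough. In the second
case (which contains the first one, for `p = q = s - m`) the vanishing of `Ext^1` is enough if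
`𝒜 s` is one-dimensional and `𝒜 (s - i) = 0` for `0 < i < m`. -/
theorem result :
    ∀ (k : Type) [Field k] (A : Type) [Ring A] [Algebra k A] [FiniteDimensional k A]
      (M : Type) [AddCommGroup M] [Module A M] [Module k M] [IsScalarTower k A M]
      (e : M ≃ₗ[k] Module.Dual k A),
      (∀ (a : A) (m : M) (x : A), e (a • m) x = e m (x * a)) →
      ∀ [CategoryTheory.HasExt.{1} (ModuleCat.{0} A)]
      (𝒜 : ℕ → Submodule k A) [GradedAlgebra 𝒜] (s m : ℕ),
      (∀ a ∈ 𝒜 0, ∃ c : k, a = algebraMap k A c) →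
      𝒜 s ≠ ⊥ → (∀ i, s < i → 𝒜 i = ⊥) →
      1 ≤ m → (∀ i, 0 < i → i < m → 𝒜 i = ⊥) →
      ((s < 4 * m ∨
        (∃ p q : ℕ, p + q < s + 2 * m ∧
          (∀ i, p < i → i + m ≤ s → ∀ x ∈ 𝒜 i, (∀ y ∈ 𝒜 (s - i), y * x = 0) → x = 0) ∧
          (∀ i, q < i → i + m ≤ s → ∀ x ∈ 𝒜 i, (∀ y ∈ 𝒜 (s - i), x * y = 0) → x = 0)) ∨
        (∃ c d : ℕ, 3 * d < s + 3 * c ∧ ∀ i, i ≤ s → i < c ∨ d < i →
          (∀ x ∈ 𝒜 i, (∀ y ∈ 𝒜 (s - i), x * y = 0) → x = 0) ∧
          (∀ y ∈ 𝒜 (s - i), (∀ x ∈ 𝒜 i, x * y = 0) → y = 0)) ∨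
        ((∀ i, m ≤ i → 6 * i + 3 ≤ s →
            Module.finrank k (𝒜 i) = Module.finrank k (𝒜 (s - i))) ∧
          ∀ i, i ≤ s → ∀ x ∈ 𝒜 i,
            ((∀ y ∈ 𝒜 (s - i), y * x = 0) ↔ ∀ y ∈ 𝒜 (s - i), x * y = 0))) →
        (Module.Injective A A ↔
          ∀ i : ℕ, 1 ≤ i →
            Subsingleton
              (CategoryTheory.Abelian.Ext.{1} (ModuleCat.of A M) (ModuleCat.of A A) i)) ∧
        ∀ n : ℕ, 3 * s < n * m →
          (∀ i : ℕ, 1 ≤ i → i ≤ n →
            Subsingleton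
              (CategoryTheory.Abelian.Ext.{1} (ModuleCat.of A M) (ModuleCat.of A A) i)) →
          Module.Injective A A) ∧
      (∀ p q : ℕ, p + q < s + 2 * m →
        (∀ i, p < i → i + m ≤ s → ∀ x ∈ 𝒜 i, (∀ y ∈ 𝒜 (s - i), y * x = 0) → x = 0) →
        (∀ i, q < i → i + m ≤ s → ∀ x ∈ 𝒜 i, (∀ y ∈ 𝒜 (s - i), x * y = 0) → x = 0) →
        Module.finrank k (𝒜 s) = 1 → (∀ i, 0 < i → i < m → i < s → 𝒜 (s - i) = ⊥) →
        Subsingleton
          (CategoryTheory.Abelian.Ext.{1} (ModuleCat.of A M) (ModuleCat.of A A) 1) →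
        Module.Injective A A) := by
  intro k _ A _ _ _ M _ _ _ _ e he _ 𝒜 _ s m h0 hs htop hm hgap
  have h1 : Module.Injective A A → ∀ i : ℕ, 1 ≤ i →
      Subsingleton (CategoryTheory.Abelian.Ext.{1} (ModuleCat.of A M) (ModuleCat.of A A) i) := by
    intro hinj i hi
    obtain ⟨j, rfl⟩ : ∃ j, i = j + 1 := ⟨i - 1, by omega⟩
    have := Module.injective_object_of_injective_module A A
    exact Abelian.Ext.subsingleton_of_injective _ _ j
  have hnt : Nontrivial A := by
    obtain ⟨x, -, hx⟩ := Submodule.exists_mem_ne_zero_of_ne_bot hs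
    exact ⟨⟨x, 0, hx⟩⟩
  have hcast : ∀ i : ℕ, i ≤ s → ∀ y, Pool.Agent.TGr.prOf 𝒜 ((s : ℤ) - i) y = y ↔
      y ∈ 𝒜 (s - i) := by
    intro i hi y
    rw [← Nat.cast_sub hi]
    exact Pool.Agent.TGr.prOf_iff 𝒜 (s - i) y
  have hcast' : ∀ i : ℕ, i ≤ s → ∀ y, Pool.Agent.TGr.prOf 𝒜 ((s : ℤ) - ((s : ℤ) - i)) y = y ↔
      y ∈ 𝒜 i := by
    intro i hi y
    rw [sub_sub_cancel]
    exact Pool.Agent.TGr.prOf_iff 𝒜 i y
  refine ⟨?_, ?_⟩
  · intro H
    have h2 : ∀ n : ℕ, 3 * s < n * m → (∀ i : ℕ, 1 ≤ i → i ≤ n →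
        Subsingleton (CategoryTheory.Abelian.Ext.{1} (ModuleCat.of A M) (ModuleCat.of A A) i)) →
        Module.Injective A A := by
      intro n hn hE
      refine Pool.Agent.TGr.core (k := k) e he
        (Pool.Agent.TGr.gaOf 𝒜 s m h0 htop hgap) hm ?_ n hn hE ?_
      · intro h
        apply hs
        rw [← Pool.Agent.TGr.prOf_range 𝒜 s]
        exact LinearMap.range_eq_bot.2 h
      · rcases H with H | ⟨p, q, hpq, hp, hq⟩ | ⟨c, d, hcd, hw⟩ | ⟨hd, hiff⟩
        · left
          refine ⟨s - m, s - m, by omega, fun i hi him => by omega, fun i hi him => by omega⟩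
        · left
          refine ⟨p, q, hpq, fun i hi him x hx h => ?_, fun i hi him x hx h => ?_⟩
          · exact hp i hi him x ((Pool.Agent.TGr.prOf_iff 𝒜 i x).1 hx) fun y hy =>
              h y ((hcast i (by omega) y).2 hy)
          · exact hq i hi him x ((Pool.Agent.TGr.prOf_iff 𝒜 i x).1 hx) fun y hy =>
              h y ((hcast i (by omega) y).2 hy)
        · right
          left
          refine ⟨c, d, hcd, fun i hi hic => ?_⟩
          obtain ⟨h3, h4⟩ := hw i hi hic
          refine ⟨fun x hx h => ?_, fun y hy h => ?_⟩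
          · exact h3 x ((Pool.Agent.TGr.prOf_iff 𝒜 i x).1 hx) fun y hy =>
              h y ((hcast i hi y).2 hy)
          · exact h4 y ((hcast i hi y).1 hy) fun x hx => h x ((hcast' i hi x).2 hx)
        · right
          right
          refine ⟨fun i hi him => ?_, fun i hi x hx => ?_⟩
          · have h3 := hd i hi him
            rw [← Nat.cast_sub (by omega : i ≤ s)]
            change Module.finrank k (LinearMap.range (Pool.Agent.TGr.prOf 𝒜 (i : ℤ))) =
              Module.finrank k (LinearMap.range (Pool.Agent.TGr.prOf 𝒜 ((s - i : ℕ) : ℤ)))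
            rw [Pool.Agent.TGr.prOf_range, Pool.Agent.TGr.prOf_range]
            exact h3
          · have h3 := hiff i hi x ((Pool.Agent.TGr.prOf_iff 𝒜 i x).1 hx)
            constructor
            · intro h y hy
              exact (h3.1 fun y hy => h y ((hcast i hi y).2 hy)) y ((hcast i hi y).1 hy)
            · intro h y hy
              exact (h3.2 fun y hy => h y ((hcast i hi y).2 hy)) y ((hcast i hi y).1 hy)
    refine ⟨⟨h1, fun h => h2 (3 * s + 1) ?_ fun i hi _ => h i hi⟩, h2⟩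
    calc 3 * s < 3 * s + 1 := Nat.lt_succ_self _
      _ = (3 * s + 1) * 1 := (mul_one _).symm
      _ ≤ (3 * s + 1) * m := Nat.mul_le_mul_left _ hm
  · intro p q hpq hp hq hd hg hE
    refine Pool.Agent.TGr.core_window (k := k) e he
      (Pool.Agent.TGr.gaOf 𝒜 s m h0 htop hgap) ?_ ?_ hE p q hpq ?_ ?_
    · change Module.finrank k (LinearMap.range (Pool.Agent.TGr.prOf 𝒜 (s : ℤ))) = 1
      rw [Pool.Agent.TGr.prOf_range]
      exact hd
    · intro i hi him his
      refine LinearMap.range_eq_bot.1 ?_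
      change LinearMap.range (Pool.Agent.TGr.prOf 𝒜 ((s - i : ℕ) : ℤ)) = ⊥
      rw [Pool.Agent.TGr.prOf_range]
      exact hg i hi him his
    · intro i hi him x hx h
      exact hp i hi him x ((Pool.Agent.TGr.prOf_iff 𝒜 i x).1 hx) fun y hy =>
        h y ((hcast i (by omega) y).2 hy)
    · intro i hi him x hx h
      exact hq i hi him x ((Pool.Agent.TGr.prOf_iff 𝒜 i x).1 hx) fun y hy =>
        h y ((hcast i (by omega) y).2 hy)

end Pool.Agent.Results.MP_543c57_al.GradedWindow
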