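import Pool.Agent.Tach.LocalW
import Pool.Agent.Tach.Cor

set_option autoImplicit false

open CategoryTheory

namespace Pool.Agent.Results.MP_543c57_al.LocalCriterion

open IsLocalRing

/-- The first Tachikawa conjecture for a commutative local finite-dimensional algebra of
characteristic two with maximal ideal `m`, under any one of five conditions on an ideal `J` which
contains `m ^ 6`, the squares of the elements of `m` and the second elementary symmetric functions
of the terms of the relations `∑ x i * y i = 0` in `m ^ 2`. -/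
theorem result :
    ∀ (k : Type) [Field k] (A : Type) [CommRing A] [IsLocalRing A] [Algebra k A]
      [FiniteDimensional k A]
      (M : Type) [AddCommGroup M] [Module A M] [Module k M] [IsScalarTower k A M]
      (e : M ≃ₗ[k] Module.Dual k A),
      (∀ (a : A) (m : M) (x : A), e (a • m) x = e m (x * a)) →
      ∀ [CategoryTheory.HasExt.{1} (ModuleCat.{0} A)],
      (2 : A) = 0 →
      ∀ J : Ideal A,
      maximalIdeal A ^ 6 ≤ J →
      (∀ x ∈ maximalIdeal A, x ^ 2 ∈ J) →
      (∀ (l : ℕ) (x y : Fin l → A), (∀ i, x i ∈ maximalIdeal A) → (∀ i, y i ∈ maximalIdeal A) →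
        ∑ i, x i * y i = 0 → ∑ i, ∑ j, (if i < j then (x i * y i) * (x j * y j) else 0) ∈ J) →
      ((∃ g : A, (∀ j ∈ J, g * j = 0) ∧ g ∉ J) ∨
        (∃ x : A, x ∉ J ∧ ∃ σ : A, (∀ y ∈ maximalIdeal A, σ * y = 0) ∧ σ ∉ Ideal.span {x}) ∨
        (∃ x : A, x ∉ J ∧ ∀ (φ : M →ₗ[A] A) (w : M), x * φ w = 0) ∨
        (∃ x : A, x ∉ J ∧ ∃ w : M, w ∉ maximalIdeal A • (⊤ : Submodule A M) ∧
          ∀ φ : M →ₗ[A] A, (x * φ w) • w = 0) ∨
        (J ≤ maximalIdeal A ^ 2 ∧ ∃ a : A, (∀ y ∈ maximalIdeal A, ∀ j ∈ J, y * a * j = 0) ∧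
          ∃ x ∈ maximalIdeal A, x * a ∉ maximalIdeal A * J)) →
      (Module.Injective A A ↔
        ∀ i : ℕ, 1 ≤ i →
          Subsingleton
            (CategoryTheory.Abelian.Ext.{1} (ModuleCat.of A M) (ModuleCat.of A A) i)) := by
  intro k _ A _ _ _ _ M _ _ _ _ e he _ h2 J hJ6 hJsq hJE hcond
  have hA1 : IsArtinianRing A := IsArtinianRing.of_finite k A
  constructor
  · intro hinj i hi
    obtain ⟨j, rfl⟩ : ∃ j, i = j + 1 := ⟨i - 1, by omega⟩
    have := Module.injective_object_of_injective_module A A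
    exact Abelian.Ext.subsingleton_of_injective _ _ j
  · intro hN
    have hJ : Pool.Agent.Tach.AdmJ (maximalIdeal A) J := ⟨hJsq, hJE, hJ6⟩
    have hs : Function.Surjective (algebraMap A A) := fun a => ⟨a, rfl⟩
    have hc := Pool.Agent.Tach.local_crit (k := k) e he (R := A) hs h2 hN
    rcases hcond with ⟨g, hg, hgJ⟩ | ⟨x, hx, σ, hσ, hσx⟩ | ⟨x, hx, hφ⟩ | ⟨x, hx, w, hw, hφ⟩ |
      ⟨hJ2, a, ha, x, hx, hxa⟩
    · rcases hc with hinj | H
      · exact hinj
      · exact absurd (Pool.Agent.Tach.crit_one (H J hJ)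
          (by rw [Submodule.mem_annihilator]; exact hg)) hgJ
    · exact absurd (Pool.Agent.Tach.local_soc (k := k) e he (R := A) hs h2 hN J hJ x hx σ hσ) hσx
    · obtain ⟨φ, w, h⟩ := Pool.Agent.Tach.local_trace (k := k) e he (R := A) hs h2 hN J hJ x hx
      exact absurd (hφ φ w) h
    · obtain ⟨φ, h⟩ := Pool.Agent.Tach.local_critW (k := k) e he (R := A) hs h2 hN J hJ x hx w hw
      exact absurd (hφ φ) h
    · by_cases hp : ∃ v : A, maximalIdeal A = Ideal.span {v}
      · obtain ⟨v, hv⟩ := hp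
        exact Pool.Agent.Tach.inj_of_principal v hv
      · rcases hc with hinj | H
        · exact hinj
        · exact absurd (Pool.Agent.Tach.crit_two (H J hJ) hp hJ2 a
            (fun y hy => by rw [Submodule.mem_annihilator]; exact ha y hy) x hx) hxa

end Pool.Agent.Results.MP_543c57_al.LocalCriterion
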